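import Pool.Agent.H427Z.StackB

/-!
For every finite simplicial complex `K` (in particular for every triangulated sphere): if `K` is
not shellable, then the complex obtained by stacking all facets of `K` is not
vertex-decomposable.
-/

set_option autoImplicit false

namespace Pool.Agent.Results.MP_1611d4_co.NoSuchSphere

open Pool.Agent.H427Z.Stack

theorem result (V : Type) (K : Finset (Finset V)) (hK : IsComplex K) (hn : ¬ Shellable K) :
    ¬ VertexDecomposable (stackAll K) :=
  fun h => hn (shellable_of_stack K hK h)

end Pool.Agent.Results.MP_1611d4_co.NoSuchSphere
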